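import Pool.Agent.Helper50_DP.StmtsC

/-!
# Squad DP: existence over a field (module EXK)
-/

open MvPolynomial PGH PGL

namespace Pool.Agent.DP.H15

lemma le_tw {N : ℕ} (hN : 100 ≤ N) (t : Fin 20) : 57 - 3 * (t : ℕ) ≤ tw N t + 1 := by
  have h1 : (N - 3) ≤ ((t : ℕ) + 1) * (N - 3) := Nat.le_mul_of_pos_left _ (Nat.succ_pos _)
  unfold tw
  omega

lemma card_pairs (N : ℕ) : Fintype.card (Σ j : Fin N, Fin (j : ℕ)) = N * (N - 1) / 2 := by
  rw [Fintype.card_sigma]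
  simp only [Fintype.card_fin]
  rw [Fin.sum_univ_eq_sum_range (fun i => i) N, Finset.sum_range_id]

theorem exk (h1 : LdimStmt) (h2 : NdcStmt) (h3 : PinStmt) (h4 : PdgStmt) (h5 : CntStmt) :
    ExkStmt := by
  obtain ⟨n₀, h5⟩ := h5
  refine ⟨max 100 (n₀ + 3), fun N hN K _ L hL => ?_⟩
  have hN1 : 100 ≤ N := le_trans (le_max_left _ _) hN
  have hN2 : n₀ + 3 ≤ N := le_trans (le_max_right _ _) hN
  obtain ⟨n, rfl⟩ : ∃ n, N = n + 3 := ⟨N - 3, by omega⟩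
  have hn : n₀ ≤ n := by omega
  have h6 := h5 n hn
  obtain ⟨d, hd⟩ : ∃ d : Fin 20 → ℕ,
      ∀ t : Fin 20, d t = DD n (57 - 3 * (t : ℕ)) (tw (n + 3) t) := ⟨_, fun _ => rfl⟩
  have hg : ∀ t : Fin 20, ∃ g : Fin (d t) → MvPolynomial (Fin 2 × Fin 3) K,
      (∀ s, g s ∈ LogP L Finset.univ (57 - 3 * (t : ℕ)) (tw (n + 3) t)) ∧
      LinearIndependent K g := by
    intro t
    rw [hd t]
    exact h1 K n (n + 3) L _ _ hL rfl (le_tw hN1 t)
  choose g hg1 hg2 using hg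
  -- the linear map from the coefficients to the forms
  obtain ⟨T, hT⟩ : ∃ T : ((Σ t : Fin 20, Fin (d t)) → K) →ₗ[K]
      (Fin 20 → MvPolynomial (Fin 2 × Fin 3) K), ∀ F t, T F t = ∑ s, F ⟨t, s⟩ • g t s := by
    refine ⟨{ toFun := fun F t => ∑ s, F ⟨t, s⟩ • g t s, map_add' := ?_, map_smul' := ?_ },
      fun _ _ => rfl⟩
    · intro F G
      funext t
      simp only [Pi.add_apply, add_smul, Finset.sum_add_distrib]
    · intro c F
      funext t
      simp only [Pi.smul_apply, smul_eq_mul, RingHom.id_apply, Finset.smul_sum, mul_smul]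
  have hTm : ∀ F (t : Fin 20), T F t ∈ LogP L Finset.univ (57 - 3 * (t : ℕ)) (tw (n + 3) t) := by
    intro F t
    rw [hT]
    exact Submodule.sum_mem _ fun s _ => Submodule.smul_mem _ _ (hg1 t s)
  have hTi : ∀ F, T F = 0 → F = 0 := by
    intro F hF
    funext q
    obtain ⟨t, s⟩ := q
    have h7 : ∑ s, F ⟨t, s⟩ • g t s = 0 := by rw [← hT, hF]; rfl
    exact Fintype.linearIndependent_iff.mp (hg2 t) (fun s => F ⟨t, s⟩) h7 s
  -- the conditions at the nodes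
  have hΛ : ∀ q : (Σ j : Fin (n + 3), Fin (j : ℕ)),
      ∃ Λ : (Fin 20 → MvPolynomial (Fin 2 × Fin 3) K) →ₗ[K] (Fin cnd → K),
      ∀ B : Fin 20 → MvPolynomial (Fin 2 × Fin 3) K,
        (∀ t : Fin 20, B t ∈ LogP L Finset.univ (57 - 3 * (t : ℕ)) (tw (n + 3) t)) → Λ B = 0 →
        NodK L ⟨q.2, q.2.2.trans q.1.2⟩ q.1 120 (Pof L B) := fun q =>
    h2 K (n + 3) L _ _ hL hN1 (Fin.lt_def.mpr q.2.2)
  choose Λ hΛ using hΛ
  obtain ⟨Ψ, hΨ⟩ : ∃ Ψ : ((Σ t : Fin 20, Fin (d t)) → K) →ₗ[K]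
      ((Σ j : Fin (n + 3), Fin (j : ℕ)) × Fin cnd → K), ∀ F q a, Ψ F (q, a) = Λ q (T F) a := by
    refine ⟨{ toFun := fun F x => Λ x.1 (T F) x.2, map_add' := ?_, map_smul' := ?_ },
      fun _ _ _ => rfl⟩
    · intro F G
      funext x
      simp only [map_add, Pi.add_apply]
    · intro c F
      funext x
      simp only [map_smul, Pi.smul_apply, RingHom.id_apply]
  have hcard : Module.finrank K ((Σ j : Fin (n + 3), Fin (j : ℕ)) × Fin cnd → K) <
      Module.finrank K ((Σ t : Fin 20, Fin (d t)) → K) := by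
    rw [Module.finrank_fintype_fun_eq_card, Module.finrank_fintype_fun_eq_card, Fintype.card_prod,
      card_pairs, Fintype.card_fin, Fintype.card_sigma]
    have e1 : (n + 3) * (n + 3 - 1) / 2 = (n + 3) * (n + 2) / 2 := by
      rw [show n + 3 - 1 = n + 2 by omega]
    have e2 : ∑ t : Fin 20, Fintype.card (Fin (d t)) =
        ∑ t : Fin 20, DD n (57 - 3 * (t : ℕ)) (tw (n + 3) t) :=
      Finset.sum_congr rfl fun t _ => (Fintype.card_fin _).trans (hd t)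
    rw [e1, e2]
    exact h6
  obtain ⟨F, hF1, hF2⟩ := Submodule.exists_mem_ne_zero_of_ne_bot
    (LinearMap.ker_ne_bot_of_finrank_lt (f := Ψ) hcard)
  have hB0 : T F ≠ 0 := fun h => hF2 (hTi F h)
  have hPof : Pof L (T F) ≠ 0 := fun h => hB0 (h3 K (n + 3) L _ hL (by omega) h)
  obtain ⟨h8, h9⟩ := h4 K (n + 3) L (T F) hN1 (hTm F)
  refine ⟨Pof L (T F), hPof, h8, fun i j hij => ?_, h9⟩
  have h10 := hΛ ⟨j, ⟨i, Fin.lt_def.mp hij⟩⟩ (T F) (hTm F) (by
    funext a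
    rw [← hΨ, LinearMap.mem_ker.mp hF1]
    rfl)
  exact h10

end Pool.Agent.DP.H15
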